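import Pool.Agent.Helper35.IL.Stm
import Pool.Agent.Helper35.EM.Model

/-!
Project IL (helper35), package SH (helper13): the trivial implications between the instances.
-/

set_option autoImplicit false

namespace Pool.Agent.Helper13.IL

open Pool.Agent.Helper35.EM Pool.Agent.Helper56.NL Set Module Submodule Pool.Agent.Helper35.IL

theorem sl_succ_right {F : ExpField} {n k : ℕ} (h : SL F n k) : SL F n (k + 1) := by
  intro z hz hi
  refine (h z hz hi).trans ?_
  gcongr
  exact_mod_cast Nat.le_succ k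

theorem sl_succ_succ {F : ExpField} {n k : ℕ} (h : SL F n k) : SL F (n + 1) (k + 1) := by
  intro z hz hi
  have h1 := h (fun i => z i.castSucc) (fun i => hz _) (hi.comp _ (Fin.castSucc_injective n))
  have h2 : M.eRk (range (fun i : Fin n => z i.castSucc)) ≤ M.eRk (range z) := by
    apply M.eRk_mono
    rintro x ⟨i, rfl⟩
    exact ⟨_, rfl⟩
  calc ((n + 1 : ℕ) : ℕ∞) = (n : ℕ∞) + 1 := by push_cast; rfl
    _ ≤ (M.eRk (range z) + (k : ℕ∞)) + 1 := by
        gcongr
        exact h1.trans (by gcongr)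
    _ = M.eRk (range z) + ((k + 1 : ℕ) : ℕ∞) := by
        push_cast; rw [add_assoc]

/-- (from `Helper35/GL/GB.lean`) -/
theorem val_prod (q : Nat.Primes) (s : Finset Nat.Primes) (g : Nat.Primes → ℤ) :
    padicValRat q (∏ p ∈ s, ((p : ℕ) : ℚ) ^ g p) = if q ∈ s then g q else 0 := by
  classical
  have hq : Fact (q : ℕ).Prime := ⟨q.2⟩
  induction s using Finset.induction_on with
  | empty => simp
  | insert a s ha ih =>
    have ha0 : ((a : ℕ) : ℚ) ≠ 0 := by exact_mod_cast a.2.ne_zero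
    have hp0 : ∏ p ∈ s, ((p : ℕ) : ℚ) ^ g p ≠ 0 :=
      Finset.prod_ne_zero_iff.2 (fun p _ => zpow_ne_zero _ (by exact_mod_cast p.2.ne_zero))
    rw [Finset.prod_insert ha, padicValRat.mul (zpow_ne_zero _ ha0) hp0, ih, padicValRat.zpow]
    by_cases h : q = a
    · subst h
      rw [padicValRat.self q.2.one_lt, if_neg ha, if_pos (Finset.mem_insert_self _ _)]
      ring
    · have h1 : padicValRat (q : ℕ) ((a : ℕ) : ℚ) = 0 := by
        rw [padicValRat.of_nat]
        have : padicValNat (q : ℕ) (a : ℕ) = 0 := by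
          apply padicValNat.eq_zero_of_not_dvd
          intro hd
          exact h (Subtype.ext ((Nat.prime_dvd_prime_iff_eq q.2 a.2).1 hd))
        rw [this]
        rfl
      rw [h1, mul_zero, zero_add]
      by_cases hs : q ∈ s
      · rw [if_pos hs, if_pos (Finset.mem_insert_of_mem hs)]
      · rw [if_neg hs, if_neg (by
          rw [Finset.mem_insert]
          tauto)]

theorem E_zero (F : ExpField) : F.E 0 = 1 := (F.ker 0 F.K.zero_mem).2 ⟨0, by simp⟩

theorem E_ne (F : ExpField) {x : ℂ} (hx : x ∈ F.K) : F.E x ≠ 0 := by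
  intro h
  have h1 := F.E_add x hx (-x) (F.K.neg_mem hx)
  rw [add_neg_cancel, E_zero, h, zero_mul] at h1
  exact one_ne_zero h1

theorem E_nat (F : ExpField) {x : ℂ} (hx : x ∈ F.K) (n : ℕ) : F.E ((n : ℂ) * x) = F.E x ^ n := by
  induction n with
  | zero => rw [Nat.cast_zero, zero_mul, E_zero, pow_zero]
  | succ n ih =>
    rw [Nat.cast_succ, add_mul, one_mul, F.E_add _ (F.K.mul_mem (natCast_mem F.K n) hx) _ hx, ih,
      pow_succ]

theorem E_neg (F : ExpField) {x : ℂ} (hx : x ∈ F.K) : F.E (-x) = (F.E x)⁻¹ := by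
  have h1 := F.E_add x hx (-x) (F.K.neg_mem hx)
  rw [add_neg_cancel, E_zero] at h1
  exact (inv_eq_of_mul_eq_one_right h1.symm).symm

theorem E_int (F : ExpField) {x : ℂ} (hx : x ∈ F.K) (n : ℤ) : F.E ((n : ℂ) * x) = F.E x ^ n := by
  obtain ⟨m, rfl | rfl⟩ := n.eq_nat_or_neg
  · rw [Int.cast_natCast, E_nat F hx, zpow_natCast]
  · rw [Int.cast_neg, Int.cast_natCast, neg_mul,
      E_neg F (F.K.mul_mem (natCast_mem F.K m) hx), E_nat F hx, zpow_neg, zpow_natCast]

theorem E_sum (F : ExpField) {ι : Type} (s : Finset ι) (f : ι → ℂ) (hf : ∀ i, f i ∈ F.K) :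
    F.E (∑ i ∈ s, f i) = ∏ i ∈ s, F.E (f i) := by
  classical
  induction s using Finset.induction_on with
  | empty => rw [Finset.sum_empty, Finset.prod_empty, E_zero]
  | insert a s ha ih =>
    rw [Finset.sum_insert ha, Finset.prod_insert ha, ← ih,
      F.E_add _ (hf a) _ (sum_mem fun i _ => hf i)]

/-- independent logarithms of the primes in an exponential field -/
theorem exists_logs (F : ExpField) (m : ℕ) : ∃ v : Fin m → ℂ, (∀ i, IsLog F (v i)) ∧
    LinearIndependent ℚ v := by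
  have hex : ∀ p : Nat.Primes, ∃ x ∈ F.K, F.E x = ((p : ℕ) : ℂ) := fun p =>
    F.E_surj _ (natCast_mem F.K _) (Nat.cast_ne_zero.2 p.2.ne_zero)
  choose v hv hE using hex
  obtain ⟨e⟩ : Nonempty (Fin m ↪ Nat.Primes) :=
    ⟨(Fin.valEmbedding (n := m)).trans (Infinite.natEmbedding Nat.Primes)⟩
  have hli : LinearIndependent ℚ v := by
    have h1 : LinearIndependent ℤ v := by
      rw [linearIndependent_iff']
      intro s g hg p hp
      have h2 : F.E (∑ q ∈ s, (g q : ℂ) * v q) = 1 := by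
        have h3 : ∑ q ∈ s, (g q : ℂ) * v q = 0 := by
          rw [← hg]
          exact Finset.sum_congr rfl fun q _ => (zsmul_eq_mul _ _).symm
        rw [h3, E_zero]
      rw [E_sum F s _ fun q => F.K.mul_mem (intCast_mem F.K _) (hv q)] at h2
      have h3 : ∏ q ∈ s, F.E ((g q : ℂ) * v q) = ((∏ q ∈ s, ((q : ℕ) : ℚ) ^ g q : ℚ) : ℂ) := by
        push_cast
        refine Finset.prod_congr rfl fun q _ => ?_
        rw [E_int F (hv q), hE]
      rw [h3] at h2
      have h5 : (∏ q ∈ s, ((q : ℕ) : ℚ) ^ g q : ℚ) = 1 := by exact_mod_cast h2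
      have h6 := val_prod p s g
      rw [h5, if_pos hp, padicValRat.one] at h6
      exact h6.symm
    exact (LinearIndependent.iff_fractionRing ℤ ℚ).1 h1
  refine ⟨fun i => v (e i), fun i => ⟨hv _, ?_⟩, hli.comp e e.injective⟩
  rw [hE]
  exact isAlgebraic_natCast _

theorem sl_of_succ {F : ExpField} {n k : ℕ} (h : SL F (n + 1) k) : SL F n k := by
  intro z hz hi
  obtain ⟨g, hg, hgi⟩ := exists_logs F (n + 1)
  have hex : ∃ i, g i ∉ span ℚ (range z) := by
    by_contra hcon
    push Not at hcon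
    have h1 : span ℚ (range g) ≤ span ℚ (range z) := by
      rw [span_le]; rintro _ ⟨i, rfl⟩; exact hcon i
    have hf : FiniteDimensional ℚ (span ℚ (range z)) :=
      FiniteDimensional.span_of_finite ℚ (finite_range z)
    have h2 := Submodule.finrank_mono h1
    rw [finrank_span_eq_card hgi, finrank_span_eq_card hi] at h2
    simp at h2
  obtain ⟨i0, hi0⟩ := hex
  set α := g i0 with hα
  have hzi : LinearIndependent ℚ (Fin.snoc z α : Fin (n + 1) → ℂ) := by
    rw [linearIndependent_finSnoc]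
    exact ⟨hi, hi0⟩
  have hzK : ∀ i, IsLog F ((Fin.snoc z α : Fin (n + 1) → ℂ) i) := by
    intro i
    refine Fin.lastCases ?_ (fun i => ?_) i
    · rw [Fin.snoc_last]; exact hg i0
    · rw [Fin.snoc_castSucc]; exact hz i
  have h1 := h _ hzK hzi
  have h2 : M.eRk (range (Fin.snoc z α : Fin (n + 1) → ℂ)) ≤ M.eRk (range z) + 1 := by
    have h3 : range (Fin.snoc z α : Fin (n + 1) → ℂ) ⊆ insert α (range z) := by
      rintro x ⟨i, rfl⟩
      refine Fin.lastCases ?_ (fun i => ?_) i
      · rw [Fin.snoc_last]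
        exact Or.inl rfl
      · rw [Fin.snoc_castSucc]
        exact Or.inr ⟨i, rfl⟩
    exact (M.eRk_mono h3).trans (Matroid.eRk_insert_le_add_one _ _ _)
  have h4 : ((n : ℕ∞) + 1) ≤ (M.eRk (range z) + (k : ℕ∞)) + 1 := by
    calc ((n : ℕ∞) + 1) = ((n + 1 : ℕ) : ℕ∞) := by push_cast; rfl
      _ ≤ _ := h1
      _ ≤ (M.eRk (range z) + 1) + (k : ℕ∞) := by gcongr
      _ = _ := by rw [add_assoc, add_comm 1 (k : ℕ∞), ← add_assoc]
  exact (ENat.add_le_add_iff_right (by simp)).1 h4

theorem sl_lw {F : ExpField} {n : ℕ} (h : LindemannWeierstrass F) : SL F (n + 1) n := by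
  intro z hz hi
  have h1 : (1 : ℕ∞) ≤ M.eRk (range z) := by
    refine one_le_rk (x := z 0) ⟨0, rfl⟩ fun h0 => ?_
    have h2 := h 1 (fun _ => z 0) (fun _ => mem_cl_empty.1 h0) (by
      have := hi.comp (fun _ : Fin 1 => (0 : Fin (n + 1))) (Function.injective_of_subsingleton _)
      exact this)
    exact (h2.transcendental 0) (hz 0).2
  calc ((n + 1 : ℕ) : ℕ∞) = 1 + (n : ℕ∞) := by push_cast; rw [add_comm]
    _ ≤ _ := by gcongr

/-- **Package SH.** -/
theorem sh : S_SH := fun _ _ _ => ⟨sl_succ_right, sl_of_succ, sl_succ_succ, sl_lw⟩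

end Pool.Agent.Helper13.IL
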